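import Pool.Agent.Helper66.SB.GoalsB
import Pool.Agent.Helper43.Gm.Main2

/-!
# Project SB (MP_d3128a_ag): packet SB-NSB
-/

set_option autoImplicit false

open Module MvPolynomial

noncomputable section

namespace Pool.Agent.Helper49.SB

open Pool.Agent.Helper66.SB Helper18.Shgh

/-- the extension by zero of the sorted function -/
def mm (s : ℕ) (a : Fin s → ℕ) (σ : Equiv.Perm (Fin s)) (n : ℕ) : ℕ :=
  if h : n < s then a (σ ⟨n, h⟩) else 0

theorem mm_lt {s : ℕ} {a : Fin s → ℕ} {σ : Equiv.Perm (Fin s)} (i : Fin s) :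
    mm s a σ (i : ℕ) = a (σ i) := by
  rw [mm, dif_pos i.2]

theorem mm_ge {s : ℕ} {a : Fin s → ℕ} {σ : Equiv.Perm (Fin s)} {n : ℕ} (h : s ≤ n) :
    mm s a σ n = 0 := by
  rw [mm, dif_neg (by omega)]

theorem mm_anti {s : ℕ} {a : Fin s → ℕ} {σ : Equiv.Perm (Fin s)}
    (h : ∀ i j : Fin s, i ≤ j → a (σ j) ≤ a (σ i)) : Antitone (mm s a σ) := by
  intro i j hij
  by_cases hj : j < s
  · have hi : i < s := by omega
    have h1 := mm_lt (a := a) (σ := σ) ⟨i, hi⟩
    have h2 := mm_lt (a := a) (σ := σ) ⟨j, hj⟩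
    simp only at h1 h2
    rw [h1, h2]
    exact h _ _ hij
  · rw [mm_ge (by omega)]
    exact Nat.zero_le _

theorem sum_mm {s : ℕ} {a : Fin s → ℕ} {σ : Equiv.Perm (Fin s)} (S : Finset ℕ) :
    ∑ n ∈ S, mm s a σ n =
      ∑ i ∈ (Finset.univ.filter fun i : Fin s => (i : ℕ) ∈ S), a (σ i) := by
  rw [Finset.sum_filter]
  have h1 : ∑ i : Fin s, (if (i : ℕ) ∈ S then a (σ i) else 0) =
      ∑ i : Fin s, (fun n : ℕ => if n ∈ S then mm s a σ n else 0) (i : ℕ) := by
    refine Finset.sum_congr rfl fun i _ => ?_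
    simp only
    rw [mm_lt]
  rw [h1, Fin.sum_univ_eq_sum_range (fun n : ℕ => if n ∈ S then mm s a σ n else 0) s,
    ← Finset.sum_filter]
  symm
  refine Finset.sum_subset_zero_on_sdiff (fun n hn => (Finset.mem_filter.1 hn).2) ?_
    (fun _ _ => rfl)
  intro n hn
  rw [Finset.mem_sdiff, Finset.mem_filter, Finset.mem_range] at hn
  refine mm_ge ?_
  by_contra hc
  exact hn.2 ⟨by omega, hn.1⟩

theorem gNSB (hTR : G_TR) : G_NSB := by
  intro s d a htri hor
  set f : Fin s → ℕᵒᵈ := fun i => OrderDual.toDual (a i) with hf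
  set σ : Equiv.Perm (Fin s) := Tuple.sort f with hσ
  have hmono : ∀ i j : Fin s, i ≤ j → a (σ j) ≤ a (σ i) := fun i j hij =>
    Tuple.monotone_sort f hij
  have hm := mm_anti hmono
  have htriple : mm s a σ 0 + mm s a σ 1 + mm s a σ 2 ≤ d := by
    have h1 : mm s a σ 0 + mm s a σ 1 + mm s a σ 2 = ∑ n ∈ Finset.range 3, mm s a σ n := by
      rw [Finset.sum_range_succ, Finset.sum_range_succ, Finset.sum_range_one]
    rw [h1, sum_mm]
    set J : Finset (Fin s) := Finset.univ.filter fun i : Fin s => (i : ℕ) ∈ Finset.range 3 with hJ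
    have h2 : ∑ i ∈ J, a (σ i) = ∑ i ∈ J.map σ.toEmbedding, a i := by
      rw [Finset.sum_map]
      rfl
    rw [h2]
    refine htri _ ?_
    rw [Finset.card_map]
    have h3 : J.card ≤ (Finset.range 3).card := by
      refine Finset.card_le_card_of_injOn (fun i : Fin s => (i : ℕ)) ?_ ?_
      · intro i hi
        have hi' : i ∈ J := hi
        rw [hJ, Finset.mem_filter] at hi'
        exact hi'.2
      · intro i _ j _ hij
        exact Fin.ext hij
    simpa using h3
  have hch : ch2 (d : ℤ) Finset.univ a = 2 * ((Nat.choose (d + 2) 2 : ℤ) -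
      ∑ i : Fin s, (Nat.choose (mm s a σ (i : ℕ) + 1) 2 : ℤ)) := by
    have h1 : ∑ i : Fin s, (Nat.choose (mm s a σ (i : ℕ) + 1) 2 : ℤ) =
        ∑ i : Fin s, (Nat.choose (a i + 1) 2 : ℤ) := by
      rw [← Equiv.sum_comp σ (fun i => (Nat.choose (a i + 1) 2 : ℤ))]
      refine Finset.sum_congr rfl fun i _ => ?_
      rw [mm_lt]
    rw [h1, mul_sub, Finset.mul_sum]
    have h2 := two_choose (d + 1)
    have h3 : ∀ i : Fin s, 2 * (Nat.choose (a i + 1) 2 : ℤ) = (a i : ℤ) * ((a i : ℤ) + 1) :=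
      fun i => two_choose (a i)
    simp only [h3]
    unfold ch2
    have h4 : (Nat.choose (d + 2) 2 : ℤ) = (Nat.choose (d + 1 + 1) 2 : ℤ) := rfl
    rw [h4, h2]
    push_cast
    ring
  have hmain : Helper18.Cusp.Concl s (mm s a σ) d := by
    refine Pool.Agent.Helper43.Gm.main_reduced s (mm s a σ) d hm (fun i hi => mm_ge hi) htriple ?_
    have hn : (0 : ℤ) ≤ ((Finset.univ.filter (fun i : Fin s => mm s a σ (i : ℕ) = 1)).card : ℤ) :=
      Nat.cast_nonneg _
    set e : ℤ := (Nat.choose (d + 2) 2 : ℤ) -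
      ∑ i : Fin s, (Nat.choose (mm s a σ (i : ℕ) + 1) 2 : ℤ) with he
    rcases Nat.lt_or_ge s 10 with hs | hs
    · have h9 : mm s a σ 9 = 0 := mm_ge (by omega)
      rw [h9]
      rcases le_or_gt 0 e with h0 | h0
      · left
        simp only [Nat.cast_zero]
        linarith
      · right
        simp only [Nat.cast_zero]
        linarith
    · obtain ⟨j, hj9, hj⟩ : ∃ j : Fin s, 9 ≤ (j : ℕ) ∧ mm s a σ 9 ≤ a j := by
        by_contra hc
        push Not at hc
        have h1 : ∀ i : Fin 10, (σ ⟨(i : ℕ), by omega⟩ : ℕ) < 9 := by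
          intro i
          by_contra h2
          have h3 := hc (σ ⟨(i : ℕ), by omega⟩) (by omega)
          have h4 : mm s a σ 9 ≤ mm s a σ (i : ℕ) := hm (by omega)
          have h5 := mm_lt (a := a) (σ := σ) ⟨(i : ℕ), by omega⟩
          simp only at h5
          rw [h5] at h4
          omega
        obtain ⟨i, j, hij, h2⟩ := Fintype.exists_ne_map_eq_of_card_lt
          (fun i : Fin 10 => (⟨_, h1 i⟩ : Fin 9)) (by simp)
        apply hij
        have h3 := congrArg Fin.val h2
        simp only at h3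
        have h4 := σ.injective (Fin.ext h3)
        exact Fin.ext (by simpa using congrArg Fin.val h4)
      have hsq : (mm s a σ 9 : ℤ) ^ 2 ≤ (a j : ℤ) ^ 2 := by
        have : (mm s a σ 9 : ℤ) ≤ (a j : ℤ) := by exact_mod_cast hj
        exact pow_le_pow_left₀ (Nat.cast_nonneg _) this 2
      rcases hor with h | h
      · left
        have h1 := h j hj9
        rw [hch] at h1
        linarith
      · right
        have h1 := h j hj9
        rw [hch] at h1
        linarith
  obtain ⟨G, hG, h⟩ := hmain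
  refine hTR (Fin s) (Fin s) σ a d ⟨G, hG, fun P hP hPG => ?_⟩
  have h1 := h P hP hPG
  have h2 : FS s (mm s a σ) d P = homogeneousSubmodule (Fin 3) ℂ d ⊓
      ⨅ i : Fin s, Submodule.restrictScalars ℂ
        ((Ideal.span {g : MvPolynomial (Fin 3) ℂ | g.IsHomogeneous 1 ∧ eval (P i) g = 0}) ^
          (a (σ i)) : Ideal (MvPolynomial (Fin 3) ℂ)) := by
    unfold FS LI
    simp only [mm_lt]
  rw [h2] at h1
  simp only [mm_lt] at h1
  exact h1

end Pool.Agent.Helper49.SB
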